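import Mathlib
import Pool.Agent.Q48.Fermat.Spread

/-!
The reciprocal of `x_1 ^ n + … + x_m ^ n` is rationally integrable if and only if `n ≠ m`.
-/

namespace Pool.Agent.Results.MP_4362c3_ag.FermatNotIntegrable

open MvPolynomial

universe u

/-- The rational function field `k (x_1, …, x_m)`. -/
abbrev K (k : Type u) [Field k] (m : ℕ) : Type u := FractionRing (MvPolynomial (Fin m) k)

/-- The partial derivative with respect to `x_i` of the rational function `P / Q`, given by the
quotient rule. -/
noncomputable def pd {k : Type u} [Field k] {m : ℕ} (i : Fin m)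
    (P Q : MvPolynomial (Fin m) k) : K k m :=
  algebraMap _ (K k m) (pderiv i P * Q - P * pderiv i Q) / algebraMap _ (K k m) Q ^ 2

/-- `f` is rationally integrable: it is the sum of the partial derivatives with respect to `x_i`
of rational functions `P_i / Q_i`. -/
def RationallyIntegrable {k : Type u} [Field k] {m : ℕ} (f : K k m) : Prop :=
  ∃ P Q : Fin m → MvPolynomial (Fin m) k, (∀ i, Q i ≠ 0) ∧ f = ∑ i, pd i (P i) (Q i)

/-- The rational function `1 / (x_1 ^ n + … + x_m ^ n)`. -/
noncomputable def fermat (k : Type u) [Field k] (m n : ℕ) : K k m :=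
  1 / algebraMap (MvPolynomial (Fin m) k) (K k m) (∑ i, X i ^ n)

section

variable {k : Type u} [Field k] {m : ℕ}

theorem amap_ne {Q : MvPolynomial (Fin m) k} (hQ : Q ≠ 0) :
    algebraMap (MvPolynomial (Fin m) k) (K k m) Q ≠ 0 := by
  rwa [Ne, map_eq_zero_iff _ (IsFractionRing.injective (MvPolynomial (Fin m) k) (K k m))]

theorem sum_ne_zero [CharZero k] (hm : m ≠ 0) (n : ℕ) :
    (∑ i : Fin m, X i ^ n : MvPolynomial (Fin m) k) ≠ 0 := by
  intro h
  have := congrArg (eval fun _ => (1 : k)) h
  simp at this
  exact hm this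

/-- the quotient rule does not depend on the representation -/
theorem pd_mul (i : Fin m) (P Q R : MvPolynomial (Fin m) k) (hR : R ≠ 0) :
    pd i P Q = pd i (P * R) (Q * R) := by
  unfold pd
  have e : pderiv i (P * R) * (Q * R) - P * R * pderiv i (Q * R)
      = (pderiv i P * Q - P * pderiv i Q) * R ^ 2 := by
    rw [pderiv_mul, pderiv_mul]
    ring
  rw [e, map_mul, map_mul, map_pow, mul_pow, mul_div_mul_right]
  exact pow_ne_zero _ (amap_ne hR)

theorem integrable_of_ne [CharZero k] (hm : m ≠ 0) {n : ℕ} (hn : n ≠ m) :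
    RationallyIntegrable (fermat k m n) := by
  set F : MvPolynomial (Fin m) k := ∑ i, X i ^ n with hF
  have hF0 : F ≠ 0 := sum_ne_zero hm n
  have hc : ((m : k) - n) ≠ 0 := by
    rw [sub_ne_zero]
    exact_mod_cast hn.symm
  set c : k := (m : k) - n with hcdef
  have hC : (C c : MvPolynomial (Fin m) k) ≠ 0 := by rwa [Ne, C_eq_zero]
  refine ⟨fun i => X i, fun _ => C c * F, fun _ => mul_ne_zero hC hF0, ?_⟩
  have hsum : ∑ i : Fin m, (pderiv i (X i) * (C c * F) - X i * pderiv i (C c * F))
      = C c * (C c * F) := by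
    have h1 : ∀ i : Fin m, pderiv i F = C (n : k) * X i ^ (n - 1) := by
      intro i
      rw [hF, map_sum, Finset.sum_eq_single i]
      · rw [pderiv_pow, pderiv_X_self, mul_one, map_natCast]
      · intro j _ hj
        rw [pderiv_pow, pderiv_X_of_ne hj, mul_zero]
      · intro h
        exact absurd (Finset.mem_univ i) h
    have h2 : ∀ i : Fin m, pderiv i (X i) * (C c * F) - X i * pderiv i (C c * F)
        = C c * F - C c * C (n : k) * X i ^ n := by
      intro i
      rw [pderiv_X_self, pderiv_C_mul, h1]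
      rcases n with _ | n
      · simp
      · rw [Nat.add_sub_cancel, pow_succ]
        ring
    have h3 : ∑ i : Fin m, C c * C (n : k) * X i ^ n = C c * C (n : k) * F := by
      rw [← Finset.mul_sum]
    rw [Finset.sum_congr rfl fun i _ => h2 i, Finset.sum_sub_distrib, h3,
      Finset.sum_const, Finset.card_univ, Fintype.card_fin, nsmul_eq_mul, hcdef, C_sub,
      map_natCast, map_natCast]
    ring
  unfold pd fermat
  rw [← Finset.sum_div, ← map_sum, hsum, map_mul, sq, mul_div_mul_right _ _
    (amap_ne (mul_ne_zero hC hF0)), map_mul, ← div_div, div_self (amap_ne hC)]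

theorem not_integrable [CharZero k] (hm : m ≠ 0) : ¬ RationallyIntegrable (fermat k m m) := by
  rintro ⟨P, Q, hQ, h⟩
  classical
  set F : MvPolynomial (Fin m) k := ∑ i, X i ^ m with hF
  have hF0 : F ≠ 0 := sum_ne_zero hm m
  -- a common denominator
  set D : MvPolynomial (Fin m) k := ∏ i, Q i with hD
  have hD0 : D ≠ 0 := Finset.prod_ne_zero_iff.mpr fun i _ => hQ i
  let R : Fin m → MvPolynomial (Fin m) k := fun i => ∏ j ∈ Finset.univ.erase i, Q j
  have hR0 : ∀ i, R i ≠ 0 := fun i => Finset.prod_ne_zero_iff.mpr fun j _ => hQ j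
  have hQR : ∀ i, Q i * R i = D := fun i => Finset.mul_prod_erase _ _ (Finset.mem_univ i)
  have h1 : fermat k m m = ∑ i, pd i (P i * R i) D := by
    rw [h]
    refine Finset.sum_congr rfl fun i _ => ?_
    rw [pd_mul i (P i) (Q i) (R i) (hR0 i), hQR]
  have h2 : D ^ 2 = F * ∑ i, (pderiv i (P i * R i) * D - P i * R i * pderiv i D) := by
    apply IsFractionRing.injective (MvPolynomial (Fin m) k) (K k m)
    unfold pd fermat at h1
    rw [← Finset.sum_div, ← map_sum, div_eq_div_iff (amap_ne hF0) (pow_ne_zero _ (amap_ne hD0)),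
      one_mul, mul_comm] at h1
    rw [map_pow, map_mul]
    exact h1
  exact hD0 (Q48.Fermat.main_case hm h2)

end

/-- Over every field of characteristic zero and for every `m ≥ 1`, the rational function
`1 / (x_1 ^ n + … + x_m ^ n)` is rationally integrable with respect to `x_1, …, x_m` if and
only if `n ≠ m`. -/
theorem result (k : Type u) [Field k] [CharZero k] (m : ℕ) (hm : 1 ≤ m) (n : ℕ) :
    RationallyIntegrable (fermat k m n) ↔ n ≠ m :=
  ⟨fun h hn => not_integrable (by omega) (hn ▸ h), integrable_of_ne (by omega)⟩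

end Pool.Agent.Results.MP_4362c3_ag.FermatNotIntegrable
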